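import Pool.Agent.H77.PUC.StmtsE

/-!
# Transcendence degree one
-/

universe u

namespace PUC

open Polynomial Filter Topology Metric IntermediateField.algebraAdjoinAdjoin

theorem ALC_of {K F : Type u} [Field K] [Field F] [Algebra K F] (x : F)
    (h : Algebra.IsAlgebraic (IntermediateField.adjoin K {x}) F) :
    Algebra.IsAlgebraic (Algebra.adjoin K (Set.range fun _ : Unit => x)) F := by
  rw [Set.range_const]
  refine ⟨fun a => ?_⟩
  have h1 : IsAlgebraic (IntermediateField.adjoin K {x}) a := h.isAlgebraic a
  exact (IsFractionRing.isAlgebraic_iff (Algebra.adjoin K {x})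
    (IntermediateField.adjoin K {x}) F).2 h1

theorem sAlc : SAlc.{u} := by
  intro K F _ _ _ x t _ hF ht
  have h1 := ALC_of x hF
  have hti : AlgebraicIndependent K (fun _ : Unit => t) := algebraicIndependent_unique_type_iff.2 ht
  have hle : Algebra.trdeg K F ≤ 1 := by
    have h2 := Algebra.IsAlgebraic.trdeg_le_cardinalMk K (Set.range fun _ : Unit => x)
    refine h2.trans ?_
    rw [Set.range_const]
    simp
  have hb : IsTranscendenceBasis K (fun _ : Unit => t) := by
    refine AlgebraicIndependent.isTranscendenceBasis_of_lift_trdeg_le_of_finite hti ?_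
    have := Cardinal.lift_le.{0}.2 hle
    simpa using hle
  have := hb.isAlgebraic_field
  rwa [Set.range_const] at this

end PUC
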