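import Pool.Agent.H77.PUC.StmtsE

/-!
# Finiteness over `K(x)` and over `K(ξ)`
-/

universe u

namespace PUC

open Polynomial Filter Topology Metric

theorem ICA_fin (k L : Type u) [Field k] [Field L] [Algebra k L] [Algebra.EssFiniteType k L]
    [Algebra.IsAlgebraic k L] : FiniteDimensional k L := by
  obtain ⟨s, hs⟩ := IntermediateField.fg_top k L
  have h1 : FiniteDimensional k (IntermediateField.adjoin k (s : Set L)) :=
    IntermediateField.finiteDimensional_adjoin fun x _ =>
      (Algebra.IsAlgebraic.isAlgebraic x).isIntegral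
  rw [hs] at h1
  exact Module.Finite.equiv (IntermediateField.topEquiv (F := k) (E := L)).toLinearEquiv

theorem ICA_ess {K F : Type u} [Field K] [Field F] [Algebra K F] {g : ℕ} {s0 : K} {x y : F}
    (h : IsCurve g s0 F x y) : Algebra.EssFiniteType K F := by
  classical
  rw [← IntermediateField.fg_top_iff]
  refine ⟨{x, y}, ?_⟩
  simpa using h.gen

theorem ICA_alg {K F : Type u} [Field K] [Field F] [Algebra K F] {g : ℕ} {s0 : K} {x y : F}
    (h : IsCurve g s0 F x y) : Algebra.IsAlgebraic (IntermediateField.adjoin K {x}) F := by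
  set k := IntermediateField.adjoin K {x} with hk
  let M : IntermediateField k F := algebraicClosure k F
  have hx : x ∈ M := by
    rw [mem_algebraicClosure_iff']
    have : (algebraMap k F ⟨x, IntermediateField.mem_adjoin_simple_self K x⟩) = x := rfl
    rw [← this]
    exact isIntegral_algebraMap
  have hy : y ∈ M := by
    rw [mem_algebraicClosure_iff']
    let xk : k := ⟨x, IntermediateField.mem_adjoin_simple_self K x⟩
    refine ⟨X ^ 2 + X - C (xk ^ (2 * g + 1) + algebraMap K k s0 * xk), ?_, ?_⟩
    · have : (X ^ 2 + X - C (xk ^ (2 * g + 1) + algebraMap K k s0 * xk) : k[X]) =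
          X ^ 2 + (X - C (xk ^ (2 * g + 1) + algebraMap K k s0 * xk)) := by ring
      rw [this]
      refine monic_X_pow_add ?_
      rw [degree_X_sub_C]
      exact_mod_cast one_lt_two
    · simp only [eval₂_sub, eval₂_add, eval₂_pow, eval₂_X, eval₂_C]
      rw [h.eqn]
      have e1 : algebraMap k F (xk ^ (2 * g + 1) + algebraMap K k s0 * xk) =
          x ^ (2 * g + 1) + algebraMap K F s0 * x := by
        rw [map_add, map_pow, map_mul, ← IsScalarTower.algebraMap_apply K k F]
        rfl
      rw [e1, sub_self]
  have htop : IntermediateField.adjoin K {x, y} ≤ M.restrictScalars K := by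
    rw [IntermediateField.adjoin_le_iff]
    rintro z (rfl | rfl)
    · exact hx
    · exact hy
  rw [h.gen] at htop
  refine ⟨fun a => ?_⟩
  have ha : a ∈ M := htop (show a ∈ (⊤ : IntermediateField K F) from trivial)
  exact ((mem_algebraicClosure_iff' ).1 ha).isAlgebraic

theorem sIca (hAlc : SAlc.{u}) (hTow : STow.{u}) : SIca.{u} := by
  intro K F _ _ _ g s0 x y h
  have h1 := ICA_alg h
  have h2 := ICA_ess h
  refine ⟨?_, ?_⟩
  · have : Algebra.EssFiniteType (IntermediateField.adjoin K {x}) F :=
      Algebra.EssFiniteType.of_comp K _ F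
    exact ICA_fin _ F
  · intro L _ _ _ _ _ ξ hξ
    have hxL : Transcendental K (algebraMap F L x) :=
      (transcendental_algebraMap_iff (algebraMap F L).injective).2 h.trans
    have h3 := hTow K F L x h1
    have h4 := hAlc K L (algebraMap F L x) ξ hxL h3 hξ
    have : Algebra.EssFiniteType K L := Algebra.EssFiniteType.comp K F L
    have : Algebra.EssFiniteType (IntermediateField.adjoin K {ξ}) L :=
      Algebra.EssFiniteType.of_comp K _ L
    exact ICA_fin _ L

end PUC
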