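import Pool.Agent.H77.PUC.StmtsE

/-!
# Runge: a rational function without poles on a closed disc is a limit of polynomials
-/

universe u

namespace PUC

open Polynomial Filter Topology Metric

section RNG

variable {K : Type u} [NontriviallyNormedField K]

/-- uniformly approximable by polynomials on a closed disc -/
def RNG_A (c : K) (r : ℝ) (f : K → K) : Prop :=
  ∀ ε : ℝ, 0 < ε → ∃ Q : K[X], ∀ a ∈ closedBall c r, ‖f a - Q.eval a‖ ≤ ε

theorem RNG_poly (c : K) (r : ℝ) (Q : K[X]) : RNG_A c r fun a => Q.eval a :=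
  fun ε hε => ⟨Q, fun a _ => by simp [hε.le]⟩

theorem RNG_bdQ (c : K) (r : ℝ) (Q : K[X]) :
    ∃ M : ℝ, 0 < M ∧ ∀ a ∈ closedBall c r, ‖Q.eval a‖ ≤ M := by
  induction Q using Polynomial.induction_on' with
  | add p q hp hq =>
    obtain ⟨M1, h1, h1'⟩ := hp
    obtain ⟨M2, h2, h2'⟩ := hq
    refine ⟨M1 + M2, by linarith, fun a ha => ?_⟩
    rw [eval_add]
    exact (norm_add_le _ _).trans (add_le_add (h1' a ha) (h2' a ha))
  | monomial n k =>
    refine ⟨‖k‖ * (‖c‖ + |r|) ^ n + 1, by positivity, fun a ha => ?_⟩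
    rw [eval_monomial, norm_mul, norm_pow]
    have h : ‖a‖ ≤ ‖c‖ + |r| := by
      have h1 : ‖a - c‖ ≤ r := by simpa [dist_eq_norm] using ha
      calc ‖a‖ = ‖c + (a - c)‖ := by ring_nf
        _ ≤ ‖c‖ + ‖a - c‖ := norm_add_le _ _
        _ ≤ ‖c‖ + |r| := by gcongr; exact h1.trans (le_abs_self r)
    calc ‖k‖ * ‖a‖ ^ n ≤ ‖k‖ * (‖c‖ + |r|) ^ n := by gcongr
      _ ≤ _ := by linarith

theorem RNG_bd {c : K} {r : ℝ} {f : K → K} (hf : RNG_A c r f) :
    ∃ M : ℝ, 0 < M ∧ ∀ a ∈ closedBall c r, ‖f a‖ ≤ M := by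
  obtain ⟨Q, hQ⟩ := hf 1 one_pos
  obtain ⟨M, hM, hM'⟩ := RNG_bdQ c r Q
  refine ⟨M + 1, by linarith, fun a ha => ?_⟩
  calc ‖f a‖ = ‖(f a - Q.eval a) + Q.eval a‖ := by ring_nf
    _ ≤ ‖f a - Q.eval a‖ + ‖Q.eval a‖ := norm_add_le _ _
    _ ≤ M + 1 := by linarith [hQ a ha, hM' a ha]

theorem RNG_mul {c : K} {r : ℝ} {f g : K → K} (hf : RNG_A c r f) (hg : RNG_A c r g) :
    RNG_A c r fun a => f a * g a := by
  intro ε hε
  obtain ⟨M, hM, hM'⟩ := RNG_bd hf
  obtain ⟨Q2, hQ2⟩ := hg (ε / (2 * M)) (by positivity)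
  obtain ⟨N, hN, hN'⟩ := RNG_bdQ c r Q2
  obtain ⟨Q1, hQ1⟩ := hf (ε / (2 * N)) (by positivity)
  refine ⟨Q1 * Q2, fun a ha => ?_⟩
  rw [eval_mul]
  have e : f a * g a - Q1.eval a * Q2.eval a =
      f a * (g a - Q2.eval a) + (f a - Q1.eval a) * Q2.eval a := by ring
  rw [e]
  calc _ ≤ ‖f a‖ * ‖g a - Q2.eval a‖ + ‖f a - Q1.eval a‖ * ‖Q2.eval a‖ := by
        rw [← norm_mul, ← norm_mul]; exact norm_add_le _ _
    _ ≤ M * (ε / (2 * M)) + (ε / (2 * N)) * N := by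
        gcongr
        · exact hM' a ha
        · exact hQ2 a ha
        · exact hQ1 a ha
        · exact hN' a ha
    _ = ε := by field_simp; ring

theorem RNG_inv {c β : K} {r : ℝ} (hr : 0 < r) (hβ : r < ‖β - c‖) :
    RNG_A c r fun a => (a - β)⁻¹ := by
  intro ε hε
  have hd : 0 < ‖β - c‖ := hr.trans hβ
  have hne : β - c ≠ 0 := norm_pos_iff.1 hd
  set ρ : ℝ := r / ‖β - c‖ with hρ
  have hρ0 : 0 ≤ ρ := by positivity
  have hρ1 : ρ < 1 := by rw [hρ, div_lt_one hd]; exact hβ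
  obtain ⟨N, hN⟩ := exists_pow_lt_of_lt_one (show 0 < ε * ((1 - ρ) * ‖β - c‖) by
    have : 0 < 1 - ρ := by linarith
    positivity) hρ1
  refine ⟨∑ n ∈ Finset.range N, C (-(β - c)⁻¹ ^ (n + 1)) * (X - C c) ^ n, fun a ha => ?_⟩
  have hac : ‖a - c‖ ≤ r := by simpa [dist_eq_norm] using ha
  set q : K := (a - c) * (β - c)⁻¹ with hq
  have hqn : ‖q‖ ≤ ρ := by
    rw [hq, norm_mul, norm_inv, hρ, div_eq_mul_inv]
    gcongr
  have h1q : 1 - ρ ≤ ‖1 - q‖ := by
    have := norm_sub_norm_le (1 : K) q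
    rw [norm_one] at this
    linarith
  have h1q0 : 1 - q ≠ 0 := by
    rw [← norm_pos_iff]; linarith
  have hq1 : q ≠ 1 := fun h => h1q0 (by rw [h, sub_self])
  have haβ : a - β = -((β - c) * (1 - q)) := by
    rw [hq]; field_simp; ring
  have hs : (∑ n ∈ Finset.range N, C (-(β - c)⁻¹ ^ (n + 1)) * (X - C c) ^ n : K[X]).eval a =
      -(β - c)⁻¹ * ∑ n ∈ Finset.range N, q ^ n := by
    rw [eval_finsetSum, Finset.mul_sum]
    refine Finset.sum_congr rfl fun n _ => ?_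
    simp only [eval_mul, eval_C, eval_pow, eval_sub, eval_X, hq]
    rw [pow_succ, mul_pow]; ring
  show ‖(a - β)⁻¹ - _‖ ≤ ε
  rw [hs, geom_sum_eq hq1, haβ]
  have hq1' : q - 1 ≠ 0 := sub_ne_zero.2 hq1
  have e : (-((β - c) * (1 - q)))⁻¹ - -(β - c)⁻¹ * ((q ^ N - 1) / (q - 1)) =
      -((β - c)⁻¹ * (1 - q)⁻¹ * q ^ N) := by
    field_simp
    ring
  rw [e, norm_neg, norm_mul, norm_mul, norm_inv, norm_inv, norm_pow]
  calc ‖β - c‖⁻¹ * ‖1 - q‖⁻¹ * ‖q‖ ^ N ≤ ‖β - c‖⁻¹ * (1 - ρ)⁻¹ * ρ ^ N := by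
        have : 0 < 1 - ρ := by linarith
        gcongr
    _ ≤ ‖β - c‖⁻¹ * (1 - ρ)⁻¹ * (ε * ((1 - ρ) * ‖β - c‖)) := by
        have : 0 < 1 - ρ := by linarith
        gcongr
    _ = ε := by
        have : 1 - ρ ≠ 0 := by linarith
        field_simp

theorem RNG_prod {c : K} {r : ℝ} (hr : 0 < r) (s : Multiset K) (hs : ∀ β ∈ s, r < ‖β - c‖) :
    RNG_A c r fun a => (s.map fun β => (a - β)⁻¹).prod := by
  induction s using Multiset.induction_on with
  | empty => simpa using RNG_poly c r 1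
  | cons β s ih =>
    simp only [Multiset.map_cons, Multiset.prod_cons]
    exact RNG_mul (RNG_inv hr (hs β (Multiset.mem_cons_self β s)))
      (ih fun β' h => hs β' (Multiset.mem_cons_of_mem h))

end RNG

theorem sRng : SRng.{u} := by
  intro K _ _ _ b c r ε hr hε hreg
  have hsp : b.denom = (b.denom.roots.map fun β => X - C β).prod := by
    have h := (IsAlgClosed.splits b.denom).eq_prod_roots
    rwa [(RatFunc.monic_denom b).leadingCoeff, C_1, one_mul] at h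
  have hroots : ∀ β ∈ b.denom.roots, r < ‖β - c‖ := by
    intro β hβ
    by_contra h
    push Not at h
    have h1 := hreg β (by simpa [dist_eq_norm] using h)
    exact h1 ((mem_roots'.1 hβ).2)
  have hA : RNG_A c r fun a => b.num.eval a * (b.denom.roots.map fun β => (a - β)⁻¹).prod :=
    RNG_mul (RNG_poly c r b.num) (RNG_prod hr _ hroots)
  obtain ⟨Q, hQ⟩ := hA ε hε
  refine ⟨Q, fun a ha => ?_⟩
  have e : ev a b = b.num.eval a * (b.denom.roots.map fun β => (a - β)⁻¹).prod := by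
    unfold ev RatFunc.eval
    rw [eval₂_id, eval₂_id, div_eq_mul_inv]
    congr 1
    conv_lhs => rw [hsp]
    rw [eval_multiset_prod, Multiset.map_map, ← Multiset.prod_map_inv]
    simp
  rw [e]
  exact hQ a ha

end PUC
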