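import Pool.Agent.H77.PUC.StmtsE

/-!
# Transcendental parameters are dense
-/

universe u

namespace PUC

theorem sTrs : STrs.{u} := by
  intro K _ _ _ _ _ p _ _ s0 δ hδ
  have hc : {x : K | IsAlgebraic ℚ x}.Countable := Algebraic.countable ℚ K
  have hd : Dense ({x : K | IsAlgebraic ℚ x}ᶜ) := hc.dense_compl K
  obtain ⟨s, hs, hsd⟩ := Metric.dense_iff.1 hd s0 δ hδ
  exact ⟨s, by simpa [dist_eq_norm] using hs, hsd⟩

end PUC
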